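import Mathlib

set_option autoImplicit false

/-!
# Definitions for the dichotomy of finite-valued constraint languages (helper60)

`Pay D ar` = rational payoffs on the finite domain `D`; `val` = value of a weighted instance;
`Pol1`, `Pol2` = unary and binary fractional polymorphisms; `InU`, `InS` = union of their
supports (for `InS` only idempotent ones); `Retr e` = an idempotent member of `InU` of minimal
rank, `Core e` its image, `res f e` the payoffs on the image; `Ex`, `W1`, `W2` = functions
expressible with constants (maximum over auxiliary variables).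
-/

namespace Pool.Agent.Lib.MP_87d05f_lc.DI

open Finset

section defs

variable {D V X ι : Type} {ar : ι → ℕ}

/-- rational payoff functions -/
abbrev Pay (D : Type) {ι : Type} (ar : ι → ℕ) : Type := (i : ι) → (Fin (ar i) → D) → ℚ

/-- constraints with variables `V` -/
abbrev Scp {ι : Type} (ar : ι → ℕ) (V : Type) : Type := (i : ι) × (Fin (ar i) → V)

/-- the value of the assignment `a` for the weights `w` -/
def val [Fintype ι] [Fintype V] (f : Pay D ar) (w : Scp ar V → ℚ) (a : V → D) : ℚ :=
  ∑ c, w c * f c.1 (fun j => a (c.2 j))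

/-- probability distributions with rational weights -/
def Dist [Fintype X] (ω : X → ℚ) : Prop := (∀ x, 0 ≤ ω x) ∧ ∑ x, ω x = 1

variable [Fintype D] [DecidableEq D]

/-- unary fractional polymorphisms -/
def Pol1 (f : Pay D ar) (ω : (D → D) → ℚ) : Prop :=
  Dist ω ∧ ∀ i x, f i x ≤ ∑ h, ω h * f i (fun j => h (x j))

/-- the maps in the support of some unary fractional polymorphism -/
def InU (f : Pay D ar) (h : D → D) : Prop := ∃ ω, Pol1 f ω ∧ 0 < ω h

/-- binary fractional polymorphisms -/
def Pol2 (f : Pay D ar) (ω : (D → D → D) → ℚ) : Prop :=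
  Dist ω ∧ ∀ i x y, (f i x + f i y) / 2 ≤ ∑ g, ω g * f i (fun j => g (x j) (y j))

/-- idempotent operations -/
def Idem (g : D → D → D) : Prop := ∀ d, g d d = d

/-- the operations in the support of some idempotent binary fractional polymorphism -/
def InS (f : Pay D ar) (g : D → D → D) : Prop :=
  ∃ ω, Pol2 f ω ∧ (∀ g', ω g' ≠ 0 → Idem g') ∧ 0 < ω g

/-- there is a symmetric binary fractional polymorphism -/
def SymPol (f : Pay D ar) : Prop :=
  ∃ ω, Pol2 f ω ∧ ∀ g, ω g ≠ 0 → ∀ x y, g x y = g y x

/-- `e` is a retraction in `InU` on whose image all members of `InU` are injective -/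
structure Retr (f : Pay D ar) (e : D → D) : Prop where
  mem : InU f e
  idem : ∀ d, e (e d) = e d
  inj : ∀ h, InU f h → ∀ x y, h (e x) = h (e y) → e x = e y

/-- the image of a retraction -/
abbrev Core (e : D → D) : Type := {d : D // e d = d}

/-- the payoffs on the image -/
def res (f : Pay D ar) (e : D → D) : Pay (Core e) ar := fun i x => f i (fun j => (x j).1)

/-- functions expressible with constants: `Fin r` are auxiliary variables, `D` the constants -/
def Ex [Fintype ι] (f : Pay D ar) {n : ℕ} (F : (Fin n → D) → ℚ) : Prop :=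
  ∃ (r : ℕ) (w : Scp ar ((Fin n ⊕ Fin r) ⊕ D) → ℚ), (∀ c, 0 ≤ w c) ∧
    ∀ x, IsGreatest (Set.range fun z : Fin r → D => val f w (Sum.elim (Sum.elim x z) id)) (F x)

/-- expressible unary functions -/
def W1 [Fintype ι] (f : Pay D ar) (u : D → ℚ) : Prop := Ex f (n := 1) (fun x => u (x 0))

/-- expressible binary functions -/
def W2 [Fintype ι] (f : Pay D ar) (h : D → D → ℚ) : Prop := Ex f (n := 2) (fun x => h (x 0) (x 1))

end defs

/-! ### The integral gadget for the maximum cut -/

section gad

variable {d g : ℕ} {ar : Fin g → ℕ}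

/-- the value of a slot: `(0, t)` is the global variable `t`, `(1, _)` and `(2, _)` are the two
ends of the edge, `(t + 3, t')` is the local variable `t'` -/
def slE {D : Type} (G : ℕ → D) (x y : D) (C : ℕ → D) (q : ℕ × ℕ) : D :=
  if q.1 = 0 then G q.2 else if q.1 = 1 then x else if q.1 = 2 then y else C q.2

/-- the value of a template -/
def valE (φ : (i : Fin g) → (Fin (ar i) → Fin d) → ℕ) (T : List ((i : Fin g) × (Fin (ar i) → ℕ × ℕ)))
    (G : ℕ → Fin d) (x y : Fin d) (C : ℕ → Fin d) : ℕ :=
  (T.map (fun t => φ t.1 (fun j => slE G x y C (t.2 j)))).sum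

/-- an exact gadget for the maximum cut: one copy of the template `T` for every edge -/
structure EGad (φ : (i : Fin g) → (Fin (ar i) → Fin d) → ℕ) where
  /-- the template -/
  T : List ((i : Fin g) × (Fin (ar i) → ℕ × ℕ))
  /-- value of an edge that is not cut -/
  κ : ℕ
  /-- gain of a cut edge -/
  δ : ℕ
  pos : 0 < δ
  yes : ∃ (G : ℕ → Fin d) (V : Bool → Fin d) (C : Bool → Bool → ℕ → Fin d), ∀ x y,
    κ + (if x ≠ y then δ else 0) ≤ valE φ T G (V x) (V y) (C x y)
  no : ∀ (m : ℕ) (s t : Fin m → ℕ) (G X : ℕ → Fin d) (C : Fin m → ℕ → Fin d),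
    ∃ α : ℕ → Bool, ∑ k, valE φ T G (X (s k)) (X (t k)) (C k) ≤
      κ * m + δ * (univ.filter (fun k => α (s k) ≠ α (t k))).card

/-- the payoffs as rational numbers -/
def ratP (φ : (i : Fin g) → (Fin (ar i) → Fin d) → ℕ) : Pay (Fin d) ar := fun i x => (φ i x : ℚ)

end gad

end Pool.Agent.Lib.MP_87d05f_lc.DI
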