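import Mathlib
import Pool.Agent.Lib.MP_87d05f_lc.DI.Defs

set_option autoImplicit false

/-!
# Renaming the variables of a weighted instance; linearity of the value
-/

namespace Pool.Agent.Lib.MP_87d05f_lc.DI

open Finset

variable {D V V' ι : Type} {ar : ι → ℕ}

/-- the renamed constraint -/
def mp (ρ : V → V') (c : Scp ar V) : Scp ar V' := ⟨c.1, fun j => ρ (c.2 j)⟩

open scoped Classical in
/-- the renamed instance -/
noncomputable def push [Fintype ι] [Fintype V] (ρ : V → V') (w : Scp ar V → ℚ) :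
    Scp ar V' → ℚ := fun c' => ∑ c, if mp ρ c = c' then w c else 0

lemma push_nonneg [Fintype ι] [Fintype V] (ρ : V → V') {w : Scp ar V → ℚ} (hw : ∀ c, 0 ≤ w c)
    (c' : Scp ar V') : 0 ≤ push ρ w c' :=
  Finset.sum_nonneg fun c _ => by
    split_ifs
    · exact hw c
    · exact le_rfl

/-- the value of a renamed instance -/
lemma val_push [Fintype ι] [Fintype V] [Fintype V'] (f : Pay D ar) (ρ : V → V')
    (w : Scp ar V → ℚ) (a : V' → D) : val f (push ρ w) a = val f w (fun v => a (ρ v)) := by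
  classical
  unfold val push
  simp only [Finset.sum_mul]
  rw [Finset.sum_comm]
  refine Finset.sum_congr rfl fun c _ => ?_
  rw [Finset.sum_eq_single (mp ρ c)]
  · rw [if_pos rfl]
    rfl
  · intro c' _ hc
    rw [if_neg (Ne.symm hc), zero_mul]
  · intro h
    exact absurd (Finset.mem_univ _) h

lemma val_add [Fintype ι] [Fintype V] (f : Pay D ar) (w w' : Scp ar V → ℚ) (a : V → D) :
    val f (fun c => w c + w' c) a = val f w a + val f w' a := by
  unfold val
  rw [← Finset.sum_add_distrib]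
  exact Finset.sum_congr rfl fun c _ => add_mul _ _ _

lemma val_smul [Fintype ι] [Fintype V] (f : Pay D ar) (t : ℚ) (w : Scp ar V → ℚ) (a : V → D) :
    val f (fun c => t * w c) a = t * val f w a := by
  unfold val
  rw [Finset.mul_sum]
  exact Finset.sum_congr rfl fun c _ => mul_assoc _ _ _

lemma val_sum [Fintype ι] [Fintype V] {κ : Type} (s : Finset κ) (f : Pay D ar)
    (w : κ → Scp ar V → ℚ) (a : V → D) :
    val f (fun c => ∑ k ∈ s, w k c) a = ∑ k ∈ s, val f (w k) a := by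
  unfold val
  simp only [Finset.sum_mul]
  exact Finset.sum_comm

/-! ### closure properties of `Ex` -/

variable [Fintype ι]

lemma ex_add [Fintype D] [DecidableEq D] {f : Pay D ar} {n : ℕ} {F G : (Fin n → D) → ℚ}
    (hF : Ex f F) (hG : Ex f G) : Ex f (fun x => F x + G x) := by
  obtain ⟨r1, w1, hw1, h1⟩ := hF
  obtain ⟨r2, w2, hw2, h2⟩ := hG
  let ρ1 : (Fin n ⊕ Fin r1) ⊕ D → (Fin n ⊕ Fin (r1 + r2)) ⊕ D :=
    Sum.map (Sum.map id (Fin.castAdd r2)) id
  let ρ2 : (Fin n ⊕ Fin r2) ⊕ D → (Fin n ⊕ Fin (r1 + r2)) ⊕ D :=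
    Sum.map (Sum.map id (Fin.natAdd r1)) id
  refine ⟨r1 + r2, fun c => push ρ1 w1 c + push ρ2 w2 c,
    fun c => add_nonneg (push_nonneg _ hw1 c) (push_nonneg _ hw2 c), fun x => ?_⟩
  have hval : ∀ z : Fin (r1 + r2) → D,
      val f (fun c => push ρ1 w1 c + push ρ2 w2 c) (Sum.elim (Sum.elim x z) id)
      = val f w1 (Sum.elim (Sum.elim x (fun i => z (Fin.castAdd r2 i))) id)
        + val f w2 (Sum.elim (Sum.elim x (fun i => z (Fin.natAdd r1 i))) id) := by
    intro z
    rw [val_add, val_push, val_push]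
    congr 2
    · funext v
      rcases v with (v | v) | v <;> rfl
    · funext v
      rcases v with (v | v) | v <;> rfl
  obtain ⟨⟨z1, hz1⟩, hb1⟩ := h1 x
  obtain ⟨⟨z2, hz2⟩, hb2⟩ := h2 x
  constructor
  · refine ⟨Fin.append z1 z2, ?_⟩
    show val f _ _ = _
    rw [hval]
    simp only [Fin.append_left, Fin.append_right]
    rw [← hz1, ← hz2]
  · rintro _ ⟨z, rfl⟩
    show val f _ _ ≤ _
    rw [hval]
    exact add_le_add (hb1 ⟨_, rfl⟩) (hb2 ⟨_, rfl⟩)

lemma ex_smul [Fintype D] [DecidableEq D] {f : Pay D ar} {n : ℕ} {F : (Fin n → D) → ℚ} {t : ℚ}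
    (ht : 0 ≤ t) (hF : Ex f F) : Ex f (fun x => t * F x) := by
  obtain ⟨r, w, hw, h⟩ := hF
  refine ⟨r, fun c => t * w c, fun c => mul_nonneg ht (hw c), fun x => ?_⟩
  obtain ⟨⟨z, hz⟩, hb⟩ := h x
  constructor
  · refine ⟨z, ?_⟩
    show val f _ _ = t * F x
    rw [val_smul, ← hz]
  · rintro _ ⟨z, rfl⟩
    show val f _ _ ≤ _
    rw [val_smul]
    exact mul_le_mul_of_nonneg_left (hb ⟨_, rfl⟩) ht

/-- renaming free variables, or replacing them by constants -/
lemma ex_comp [Fintype D] [DecidableEq D] {f : Pay D ar} {n m : ℕ} {F : (Fin n → D) → ℚ}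
    (ρ : Fin n → Fin m ⊕ D) (hF : Ex f F) :
    Ex f (fun x : Fin m → D => F (fun i => Sum.elim x id (ρ i))) := by
  obtain ⟨r, w, hw, h⟩ := hF
  let σ : (Fin n ⊕ Fin r) ⊕ D → (Fin m ⊕ Fin r) ⊕ D :=
    Sum.elim (Sum.elim (fun i => Sum.elim (fun k => Sum.inl (Sum.inl k)) Sum.inr (ρ i))
      (fun z => Sum.inl (Sum.inr z))) Sum.inr
  refine ⟨r, push σ w, push_nonneg _ hw, fun x => ?_⟩
  have hval : ∀ z : Fin r → D, val f (push σ w) (Sum.elim (Sum.elim x z) id)
      = val f w (Sum.elim (Sum.elim (fun i => Sum.elim x id (ρ i)) z) id) := by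
    intro z
    rw [val_push]
    congr 1
    funext v
    rcases v with (v | v) | v
    · show Sum.elim (Sum.elim x z) id (Sum.elim _ _ (ρ v)) = Sum.elim x id (ρ v)
      rcases ρ v with k | d <;> rfl
    · rfl
    · rfl
  simp only [hval]
  exact h _

/-- maximising the last free variable -/
lemma ex_max [Fintype D] [DecidableEq D] {f : Pay D ar} {n : ℕ} {F : (Fin (n + 1) → D) → ℚ}
    {u : (Fin n → D) → ℚ} (hF : Ex f F)
    (hu : ∀ x, IsGreatest (Set.range fun y : D => F (Fin.snoc x y)) (u x)) : Ex f u := by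
  obtain ⟨r, w, hw, h⟩ := hF
  let σ : (Fin (n + 1) ⊕ Fin r) ⊕ D → (Fin n ⊕ Fin (r + 1)) ⊕ D :=
    Sum.elim (Sum.elim (fun i : Fin (n + 1) =>
      Fin.lastCases (motive := fun _ => (Fin n ⊕ Fin (r + 1)) ⊕ D) (Sum.inl (Sum.inr 0))
        (fun i => Sum.inl (Sum.inl i)) i)
      (fun z => Sum.inl (Sum.inr z.succ))) Sum.inr
  refine ⟨r + 1, push σ w, push_nonneg _ hw, fun x => ?_⟩
  have hval : ∀ z : Fin (r + 1) → D, val f (push σ w) (Sum.elim (Sum.elim x z) id)
      = val f w (Sum.elim (Sum.elim (Fin.snoc (α := fun _ => D) x (z 0)) (fun i => z i.succ))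
        id) := by
    intro z
    rw [val_push]
    congr 1
    funext v
    rcases v with (v | v) | v
    · show Sum.elim (Sum.elim x z) id (Fin.lastCases _ _ v) = Fin.snoc (α := fun _ => D) x (z 0) v
      induction v using Fin.lastCases with
      | last => rw [Fin.lastCases_last, Fin.snoc_last]; rfl
      | cast i => rw [Fin.lastCases_castSucc, Fin.snoc_castSucc]; rfl
    · rfl
    · rfl
  obtain ⟨⟨y, hy⟩, hb⟩ := hu x
  constructor
  · obtain ⟨⟨z, hz⟩, _⟩ := h (Fin.snoc (α := fun _ => D) x y)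
    refine ⟨Fin.cons (α := fun _ => D) y z, ?_⟩
    show val f _ _ = _
    rw [hval, ← hy]
    exact hz
  · rintro _ ⟨z, rfl⟩
    show val f _ _ ≤ _
    rw [hval]
    exact ((h _).2 ⟨_, rfl⟩).trans (hb ⟨z 0, rfl⟩)

end Pool.Agent.Lib.MP_87d05f_lc.DI
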