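import Mathlib
import Pool.Agent.Lib.MP_87d05f_lc.DI.Defs

set_option autoImplicit false

/-!
# DICHOTOMY: statements with complete proofs in words (helper60)

Goal: a finite-valued language without symmetric binary fractional polymorphism has an exact
gadget for the maximum cut (`GadS`), hence (machine pieces in `StmM.lean`) Q1 is equivalent to its version
for EVERY such language.  Notation of the proofs: `U`, `S` for `InU`, `InS`; for `g, g₁ : D² → D`
write `(g ⋆ g₁)(x,y) = g(g₁(x,y), g₁(y,x))`, `ḡ(x,y) = g(y,x)`; `pr1, pr2` the projections;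
`f(h(x))` for `f i (fun j => h (x j))` and `f(g(x,y))` for `f i (fun j => g (x j) (y j))`.

Pieces go to `DI/P/<name>.lean`, namespace `Pool.Agent.Lib.MP_87d05f_lc.DI`, theorem `<name>`,
with the statements a piece uses as hypotheses, e.g. `theorem supp (h : FarkasS) : SuppS`.
-/

namespace Pool.Agent.Lib.MP_87d05f_lc.DI

open Finset

/-! ## Linear programming over `ℚ` -/

/-- [farkas] Farkas' lemma over the rationals.  (Fourier-Motzkin elimination: induction on `n`,
eliminating the last variable; or induction on the number of inequalities.) -/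
def FarkasS : Prop := ∀ (m n : ℕ) (A : Fin m → Fin n → ℚ) (b : Fin m → ℚ),
  (∃ x : Fin n → ℚ, (∀ j, 0 ≤ x j) ∧ ∀ i, ∑ j, A i j * x j ≤ b i) ∨
  (∃ y : Fin m → ℚ, (∀ i, 0 ≤ y i) ∧ (∀ j, 0 ≤ ∑ i, y i * A i j) ∧ ∑ i, y i * b i < 0)

/-- [gordan] (uses farkas) If no distribution `ω` satisfies all the inequalities
`0 ≤ ∑ x, ω x * M c x`, some nonnegative combination of the rows is negative everywhere.
(System: `x ≥ 0`, `-∑ x ≤ -1`, `-M x ≤ 0`; a solution can be scaled to a distribution; the dual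
vector is `(t, w)` with `∑ c, w c * M c x ≤ -t`, `t > 0`.) -/
def GordanS : Prop := ∀ (X C : Type) [Fintype X] [Fintype C] (M : C → X → ℚ),
  (¬ ∃ ω : X → ℚ, Dist ω ∧ ∀ c, 0 ≤ ∑ x, ω x * M c x) →
  ∃ w : C → ℚ, (∀ c, 0 ≤ w c) ∧ ∀ x, ∑ c, w c * M c x < 0

/-- [supp] (uses farkas) Complementary slackness.  For every `x₀` which is not in the support of
a feasible distribution, Farkas (`x ≥ 0`, `-x_{x₀} ≤ -1`, `-M x ≤ 0`) gives `w ≥ 0` with
`∑ c, w c * M c x ≤ -[x = x₀]` up to a positive factor; sum over all such `x₀`.  The equivalence: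
if `ω` is feasible, `0 ≤ ∑ c, w c * ∑ x, ω x * M c x = ∑ x, ω x * (∑ c, w c * M c x)` with all
summands `≤ 0`. -/
def SuppS : Prop := ∀ (X C : Type) [Fintype X] [Fintype C] (M : C → X → ℚ),
  (∃ ω : X → ℚ, Dist ω ∧ ∀ c, 0 ≤ ∑ x, ω x * M c x) →
  ∃ w : C → ℚ, (∀ c, 0 ≤ w c) ∧ ∀ x, ∑ c, w c * M c x ≤ 0 ∧
    (∑ c, w c * M c x = 0 ↔ ∃ ω : X → ℚ, Dist ω ∧ (∀ c, 0 ≤ ∑ x, ω x * M c x) ∧ 0 < ω x)

/-- [maxp] Maximum principle: a subharmonic function on a finite set on which every state is
reached from every state in one step is constant.  (At a maximum `s` of `F` on `S` all `T x s`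
with `ω x > 0` have the same value; they are all the states.) -/
def MaxpS : Prop := ∀ (X A : Type) [Fintype X] (ω : X → ℚ) (T : X → A → A) (S : Set A)
  (F : A → ℚ), Dist ω → S.Finite → (∀ x, 0 < ω x → ∀ s ∈ S, T x s ∈ S) →
  (∀ s ∈ S, ∀ t ∈ S, ∃ x, 0 < ω x ∧ T x s = t) →
  (∀ s ∈ S, F s ≤ ∑ x, ω x * F (T x s)) → ∀ s ∈ S, ∀ t ∈ S, F s = F t

/-! ## Unary fractional polymorphisms -/

/-- [u0] `U` contains the identity, is closed under composition (push the product distribution
forward: `∑_h ω h ∑_k ω' k f(h(k(x))) ≥ ∑_k ω' k f(k(x)) ≥ f(x)`), and it is the support of one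
unary fractional polymorphism (an average). -/
def U0S : Prop := ∀ (D ι : Type) [Fintype D] [DecidableEq D] (ar : ι → ℕ) (f : Pay D ar),
  InU f id ∧ (∀ h k, InU f h → InU f k → InU f (fun d => h (k d))) ∧
  ∃ ω, Pol1 f ω ∧ ∀ h, InU f h → 0 < ω h

/-- [u1] (uses u0) There is a retraction of minimal rank.  (Take `h ∈ U` with the least number of
values, `e = h^n` idempotent with `n ≥ 1` (finite monoid); for `k ∈ U` the map `k ∘ e ∈ U` has at
least as many values as `h`, so `k` is injective on the image of `e`.) -/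
def U1S : Prop := ∀ (D ι : Type) [Fintype D] [DecidableEq D] (ar : ι → ℕ) (f : Pay D ar),
  ∃ e, Retr f e

/-- [u2] (uses u0) Reachability.  (`e ∘ h` permutes the image of `e` by `inj`, so its `n`-th power
is the identity there for some `n ≥ 1`; take `u = k ∘ (e ∘ h)^(n-1) ∘ e`.) -/
def U2S : Prop := ∀ (D ι : Type) [Fintype D] [DecidableEq D] (ar : ι → ℕ) (f : Pay D ar)
  (e : D → D), Retr f e → ∀ h k, InU f h → InU f k →
  ∃ u, InU f u ∧ ∀ d, u (h (e d)) = k (e d)

/-- [u3] (uses maxp, u0, u2) THE CONSTANTS.  If the constants `c` of the core are read as `h c`,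
`h ∈ U`, every assignment is dominated by an assignment with values in the core and the true
constants.  Proof: for `p : D → D` let `M p` be the maximum over `a` of
`val f w (Sum.elim a (fun c => p c.1))`.  Let `ω` be as in [u0].  For an optimal `a` for `p`:
`M p = val(a; p) ≤ ∑ x, ω x * val(x ∘ a; x ∘ p) ≤ ∑ x, ω x * M (x ∘ p)`.  By [maxp] on the set
`{h ∘ e : h ∈ U}` (reachability is [u2]) `M (h ∘ e) = M e` for all `h ∈ U`; note `c.1 = e c.1` for
`c` in the core, so `M h = M (h ∘ e)`.  For an optimal `a` for `e` all inequalities above are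
equalities, in particular for `x = e`: `val(e ∘ a; e) = M e`.  Take `b = e ∘ a`.  (If `V → D` is
empty there is nothing to prove.) -/
def U3S : Prop := ∀ (D ι V : Type) [Fintype D] [DecidableEq D] [Fintype ι] [Fintype V]
  (ar : ι → ℕ) (f : Pay D ar) (e : D → D), Retr f e →
  ∀ w : Scp ar (V ⊕ Core e) → ℚ, (∀ c, 0 ≤ w c) → ∀ h, InU f h → ∀ a : V → D,
  ∃ b : V → Core e, val f w (Sum.elim a (fun c => h c.1)) ≤
    val f w (Sum.elim (fun v => (b v).1) (fun c => c.1))

/-- [u4] (uses supp) An instance on the variables `D` whose optimal assignments are exactly the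
members of `U`.  (`supp` with `X = D → D`, `C = Scp ar D`,
`M c h = f c.1 (h ∘ c.2) - f c.1 c.2`; the feasible distributions are those with `Pol1`.) -/
def U4S : Prop := ∀ (D ι : Type) [Fintype D] [DecidableEq D] [Fintype ι] (ar : ι → ℕ)
  (f : Pay D ar), ∃ w : Scp ar D → ℚ, (∀ c, 0 ≤ w c) ∧
  ∀ h : D → D, val f w h ≤ val f w id ∧ (val f w h = val f w id ↔ InU f h)

/-- [u5] (uses u4) On the core, every `a` is the unique maximum of an expressible unary function.
(Take the instance of [u4]; replace the variable `a` by the free variable, the variables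
`d ≠ a` of the core by constants and the variables outside the core by auxiliary variables.  For
`x = a` the auxiliary values `e d` give the map `e ∈ U`, so the value `val f w id`.  For `x ≠ a` the
resulting map `h` satisfies `h x = x = h a`, so it is not in `U` by `inj`, and all values are
smaller; there are finitely many.) -/
def U5S : Prop := ∀ (D ι : Type) [Fintype D] [DecidableEq D] [Fintype ι] (ar : ι → ℕ)
  (f : Pay D ar) (e : D → D), Retr f e → ∀ a : Core e, ∃ u : Core e → ℚ,
  W1 (res f e) u ∧ ∀ x, x ≠ a → u x < u a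

/-- [u6] (uses gordan, u0, u3) There is a unary fractional polymorphism with values in the core.
(Otherwise `gordan` with `X` the maps `h` with `e ∘ h = h`, `C = Scp ar D`,
`M c h = f c.1 (h ∘ c.2) - f c.1 c.2` gives `w ≥ 0` with `val f w h < val f w id` for all these
`h`; but [u3] with `V = D`, no constants, `h = id`, `a = id` gives such an `h` with
`val f w id ≤ val f w h`.) -/
def U6S : Prop := ∀ (D ι : Type) [Fintype D] [DecidableEq D] [Fintype ι] (ar : ι → ℕ)
  (f : Pay D ar) (e : D → D), Retr f e →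
  ∃ ω, Pol1 f ω ∧ ∀ h, ω h ≠ 0 → ∀ d, e (h d) = h d

/-- [u7] (uses u6) A symmetric fractional polymorphism of the core extends.  (Draw `h` from [u6]
and `g` on the core independently and use `(x, y) ↦ g (h x) (h y)`.) -/
def U7S : Prop := ∀ (D ι : Type) [Fintype D] [DecidableEq D] [Fintype ι] (ar : ι → ℕ)
  (f : Pay D ar) (e : D → D), Retr f e → SymPol (res f e) → SymPol f

/-! ## Binary fractional polymorphisms, expressible functions (arbitrary finite domain) -/

/-- [s0] The projections are in `S` (`(pr1 + pr2)/2`), members of `S` are idempotent, `S` is closed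
under `⋆` (push `ω × ω₁` forward; apply the inequality of `ω` to `g₁(x,y), g₁(y,x)` and that of
`ω₁` to `(x,y)` and to `(y,x)`), and `S` is the support of one idempotent binary fractional
polymorphism. -/
def S0S : Prop := ∀ (D ι : Type) [Fintype D] [DecidableEq D] (ar : ι → ℕ) (f : Pay D ar),
  InS f (fun x _ => x) ∧ InS f (fun _ y => y) ∧ (∀ g, InS f g → Idem g) ∧
  (∀ g g₁, InS f g → InS f g₁ → InS f (fun x y => g (g₁ x y) (g₁ y x))) ∧
  ∃ ω, Pol2 f ω ∧ (∀ g, ω g ≠ 0 → Idem g) ∧ ∀ g, InS f g → 0 < ω g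

/-- [w0] Closure properties of the expressible functions (renaming variables of instances). -/
def W0S : Prop := ∀ (D ι : Type) [Fintype D] [DecidableEq D] [Nonempty D] [Fintype ι]
  (ar : ι → ℕ) (f : Pay D ar),
  (∀ u v, W1 f u → W1 f v → W1 f (fun x => u x + v x)) ∧
  (∀ (t : ℚ) u, 0 ≤ t → W1 f u → W1 f (fun x => t * u x)) ∧
  (∀ h k, W2 f h → W2 f k → W2 f (fun x y => h x y + k x y)) ∧
  (∀ (t : ℚ) h, 0 ≤ t → W2 f h → W2 f (fun x y => t * h x y)) ∧
  (∀ u, W1 f u → W2 f (fun x _ => u x)) ∧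
  (∀ h, W2 f h → W2 f (fun x y => h y x)) ∧
  (∀ h c, W2 f h → W1 f (fun x => h x c)) ∧
  (∀ h u, W2 f h → (∀ x, IsGreatest (Set.range (h x)) (u x)) → W1 f u)

/-- [w1] Idempotent fractional polymorphisms preserve expressible functions.  (Take optimal
auxiliary values `z`, `z'` for `(x,y)` and `(x',y')` and use `g(z,z')`; constants are fixed by
idempotence.) -/
def W1S : Prop := ∀ (D ι : Type) [Fintype D] [DecidableEq D] [Fintype ι] (ar : ι → ℕ)
  (f : Pay D ar) (ω : (D → D → D) → ℚ), Pol2 f ω → (∀ g, ω g ≠ 0 → Idem g) →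
  ∀ h, W2 f h → ∀ x y x' y', (h x y + h x' y') / 2 ≤ ∑ g, ω g * h (g x x') (g y y')

/-- [w2] (uses supp, s0) For `a ≠ b` there is an expressible `h` whose set of maxima is
`O(a,b) = {(g(a,b), g(b,a)) : g ∈ S}`.  (`supp` with `X` the idempotent operations,
`C = Scp ar (D × D)`, `M c g = f(g(x,y)) - (f(x) + f(y))/2` for `c = (i, (x,y))`: with
`Φ g = ∑ w c f(g(c))`, `B = ∑ w c (f(x) + f(y))/2` we get `Φ g ≤ B` with equality iff `g ∈ S`.
`h(x,y)` is the maximum of `Φ g` over the idempotent `g` with `g(a,b) = x`, `g(b,a) = y`: an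
instance whose variables are the pairs; the diagonal pairs are constants, `(a,b)`, `(b,a)` are
free, the others auxiliary.  `h(a,b) = B` by `pr1`.) -/
def W2S : Prop := ∀ (D ι : Type) [Fintype D] [DecidableEq D] [Fintype ι] (ar : ι → ℕ)
  (f : Pay D ar) (a b : D), a ≠ b → ∃ h, W2 f h ∧ ∀ x y, h x y ≤ h a b ∧
    (h x y = h a b ↔ ∃ g, InS f g ∧ g a b = x ∧ g b a = y)

/-- [s1] (uses gordan, s0) If every pair is symmetrised by some `g ∈ S`, there is a symmetric
fractional polymorphism.  Proof: otherwise `gordan` with `X` the symmetric idempotent operations,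
`C = Scp ar (D × D)` and `M` as in [w2] gives `w ≥ 0` with `Φ g < B` for all symmetric idempotent
`g` (`Φ`, `B` as in [w2]).  Let `Γ g = Φ g + Φ ḡ` and let `ω` have support `S` ([s0]).  For
idempotent `g₀`: `∑ g, ω g * Φ(g ⋆ g₀) ≥ Γ(g₀)/2`, and `(g ⋆ g₀)‾ = g ⋆ ḡ₀`, so
`∑ g, ω g * Γ(g ⋆ g₀) ≥ Γ g₀`.  Let `Γ` be maximal at `g₀` among the idempotent operations, and
among these let `g₀` have the most pairs with `g₀(x,y) = g₀(y,x)`.  `Γ(pr1) = 2B`, so
`Γ g₀ ≥ 2B`.  By the inequality `Γ(g ⋆ g₀) = Γ g₀` for all `g ∈ S`.  If `c = g₀(x,y) ≠ g₀(y,x) = d`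
take `g ∈ S` with `g(c,d) = g(d,c)`: `g ⋆ g₀` has more symmetric pairs.  So `g₀` is symmetric and
`2 Φ g₀ = Γ g₀ ≥ 2B`, a contradiction. -/
def S1S : Prop := ∀ (D ι : Type) [Fintype D] [DecidableEq D] [Fintype ι] (ar : ι → ℕ)
  (f : Pay D ar), (∀ a b, ∃ g, InS f g ∧ g a b = g b a) → SymPol f

/-- the pair `(a, b)` is recurrent and never reaches the diagonal -/
def Rec {D ι : Type} [Fintype D] [DecidableEq D] {ar : ι → ℕ} (f : Pay D ar) (a b : D) : Prop :=
  (∀ g, InS f g → g a b ≠ g b a) ∧
  ∀ g, InS f g → ∃ g', InS f g' ∧ g' (g a b) (g b a) = a ∧ g' (g b a) (g a b) = b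

/-- [s2] (uses s0) If some pair never reaches the diagonal, some recurrent pair does not either.
(Take `(a,b)` with this property and `O(a,b)` of least size; for `(c,d) ∈ O(a,b)` one has
`O(c,d) ⊆ O(a,b)` by `⋆`, and `(c,d)` has the same property, so `O(c,d) = O(a,b) ∋ (a,b)`.) -/
def S2S : Prop := ∀ (D ι : Type) [Fintype D] [DecidableEq D] (ar : ι → ℕ) (f : Pay D ar)
  (a b : D), (∀ g, InS f g → g a b ≠ g b a) → ∃ a' b', Rec f a' b'

/-- [s3] (uses maxp, s0, w1) For expressible `h` the function `h(x,y) + h(y,x)` is constant on the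
orbit of a recurrent pair.  ([maxp] with `A = D × D`, `T g (x,y) = (g x y, g y x)`, the set
`O(a,b)` and `ω` of [s0]: by [w1], `∑ g, ω g * h(g(x,y), g(y,x)) ≥ (h(x,y) + h(y,x))/2` and the
same for `(y,x)`.) -/
def S3S : Prop := ∀ (D ι : Type) [Fintype D] [DecidableEq D] [Fintype ι] (ar : ι → ℕ)
  (f : Pay D ar) (a b : D), Rec f a b → ∀ h, W2 f h → ∀ g, InS f g →
  h (g a b) (g b a) + h (g b a) (g a b) = h a b + h b a

/-- every element is the unique maximum of an expressible unary function -/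
def Uniq {D ι : Type} [Fintype D] [DecidableEq D] [Fintype ι] {ar : ι → ℕ} (f : Pay D ar) :
    Prop := ∀ a, ∃ u, W1 f u ∧ ∀ x, x ≠ a → u x < u a

/-- [s4] (uses s0, s3, w0, w2) The symmetric function of a recurrent pair.  Proof: `a ≠ b` by
`pr1`.  Take `h` of [w2], `f₀(x,y) = h(x,y) + h(y,x)`, `H = 2 h(a,b)`.  `O = O(a,b)` is closed
under the swap (`pr2` and recurrence: for `(c,d) ∈ O` also `(d,c) ∈ O(c,d) = O`), so the maxima of
`f₀` are exactly the pairs in `O`, with value `H`.  For `u` in `W1`, `u(x) + u(y)` is constant on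
`O` ([s3] for `(x,y) ↦ u x`), so by `Uniq` the pair `(x,y) ∈ O` is determined by `x`: `O` is the
graph of an involution `x ↦ x'` of a set `E`, without fixed point.  `E ∋ a, b`.  The function
`r(x) = max_y f₀(x,y)` has the set of maxima `E`.  For `x ≠ y` in `E` the unary function
`v = f₀(·, x)` gives `v(x) + v(x') = v(y) + v(y')`, where `v(x') = H` and `v(y') < H` because
`(y', x) ∉ O` (the partner of `y'` is `y ≠ x`).  So `f₀(x,x) < f₀(y,x)`. -/
def S4S : Prop := ∀ (D ι : Type) [Fintype D] [DecidableEq D] [Nonempty D] [Fintype ι]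
  (ar : ι → ℕ) (f : Pay D ar) (a b : D), Uniq f → Rec f a b →
  ∃ (f₀ : D → D → ℚ) (E : Finset D) (r : D → ℚ) (R : ℚ), W2 f f₀ ∧ (∀ x y, f₀ x y = f₀ y x) ∧
    2 ≤ E.card ∧ W1 f r ∧ (∀ x, r x ≤ R ∧ (r x = R ↔ x ∈ E)) ∧
    ∀ x ∈ E, ∀ y ∈ E, x ≠ y → f₀ x x < f₀ x y

/-- [s5] (uses w0) A unary function with exactly two maxima, in `E`.  Proof: among all `s` in `W1`
whose set `A` of maxima is contained in `E` and has at least two elements take one with `A` of
least size.  Suppose `|A| ≥ 3`.  For `a ≠ c` in `A` let `lam` be the least of the numbers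
`(u_a(a) - u_a(x))/(u_c(x) - u_c(a))` over `x ∈ A` with `u_c(x) > u_c(a)` (there is one, `x = c`);
`lam > 0`.  On `A` the function `u_a + lam u_c` has its maximum at `a` and at another point, and
`s + mu (u_a + lam u_c)` for small `mu > 0` has exactly these maxima on `D`; by minimality
`u_a + lam u_c` is constant on `A`.  For three elements `a, c, d`: `u_c = α - β u_a`,
`u_d = α' - β' u_a`, `u_d = α'' - β'' u_c` on `A` with `β, β', β'' > 0`, so
`u_a` is constant on `A`, a contradiction. -/
def S5S : Prop := ∀ (D ι : Type) [Fintype D] [DecidableEq D] [Nonempty D] [Fintype ι]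
  (ar : ι → ℕ) (f : Pay D ar) (E : Finset D) (r : D → ℚ) (R : ℚ), Uniq f → 2 ≤ E.card →
  W1 f r → (∀ x, r x ≤ R ∧ (r x = R ↔ x ∈ E)) →
  ∃ (s : D → ℚ) (S : ℚ) (p q : D), W1 f s ∧ p ∈ E ∧ q ∈ E ∧ p ≠ q ∧
    ∀ x, s x ≤ S ∧ (s x = S ↔ x = p ∨ x = q)

/-- the conclusion of the algebraic part: a balanced exact gadget with constants -/
def Bal {D ι : Type} [Fintype D] [DecidableEq D] [Fintype ι] {ar : ι → ℕ} (f : Pay D ar) :
    Prop :=
  ∃ (h : D → D → ℚ) (p q : D) (H L : ℚ), W2 f h ∧ p ≠ q ∧ L < H ∧ h p q = H ∧ h q p = H ∧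
    h p p = L ∧ h q q = L ∧ ∀ x y, ¬ ((x = p ∨ x = q) ∧ (y = p ∨ y = q)) → h x y ≤ L

/-- [s6] (uses w0, s1, s2, s4, s5) Proof: by [s1] some pair never reaches the diagonal; [s2], [s4],
[s5].  With `A = f₀(p,p)`, `B = f₀(q,q)`, `C = f₀(p,q) > A, B`: if `A ≤ B` let
`u = lam u_p` with `lam (u_p(p) - u_p(q)) = (B - A)/2`, else `u = lam u_q` with
`lam (u_q(q) - u_q(p)) = (A - B)/2`; so `u(p) - u(q) = (B - A)/2`.
`h(x,y) = f₀(x,y) + u(x) + u(y) + M (s(x) + s(y))`: `h(p,p) = h(q,q) = L`,
`h(p,q) = h(q,p) = L + C - (A + B)/2`; for large `M` all other values are at most `L`. -/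
def S6S : Prop := ∀ (D ι : Type) [Fintype D] [DecidableEq D] [Nonempty D] [Fintype ι]
  (ar : ι → ℕ) (f : Pay D ar), Uniq f → ¬ SymPol f → Bal f

/-! ## The integral gadget -/

/-- [g1] (uses u3) Soundness for families of edges, rational weights.  `w` is the instance of the
gadget on the core, `h x y` bounds its values with auxiliary variables in the core and true
constants.  For edges `(s k, t k)`, `k < m`, arbitrary values `X v` of the vertices, `C k` of the
auxiliary variables of the `k`-th copy, and constants read as `hG c`, `hG ∈ U`: some core-valued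
`b` has at least the same total value.  ([u3] with
`V = {v // ∃ k, v = s k ∨ v = t k} ⊕ Fin m × Fin r` and the sum of the `m` relabelled copies of
`w`; then bound the copies one by one.  `Core e` is not empty if `0 < m`, because `X (s k)`
exists.) -/
def G1S : Prop := ∀ (D ι : Type) [Fintype D] [DecidableEq D] [Nonempty D] [Fintype ι]
  (ar : ι → ℕ) (f : Pay D ar) (e : D → D), Retr f e →
  ∀ (r : ℕ) (w : Scp ar ((Fin 2 ⊕ Fin r) ⊕ Core e) → ℚ) (h : Core e → Core e → ℚ),
  (∀ c, 0 ≤ w c) →
  (∀ x y (z : Fin r → Core e), val (res f e) w (Sum.elim (Sum.elim ![x, y] z) id) ≤ h x y) →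
  ∀ hG, InU f hG → ∀ (m : ℕ) (s t : Fin m → ℕ) (X : ℕ → D) (C : Fin m → Fin r → D),
  ∃ b : ℕ → Core e,
    ∑ k, val f w (Sum.elim (Sum.elim ![X (s k), X (t k)] (C k)) (fun c => hG c.1)) ≤
      ∑ k, h (b (s k)) (b (t k))

/-- [g2] (uses u1, u4, u5, u7, s6, g1) THE GADGET.  Let `f = ratP φ`, `e` of [u1],
`Bal (res f e)` by [u5], [u7], [s6] with `h, p, q, H, L` and its instance `(r, w)`; let `wI` be
the instance of [u4].  Let `N > 0` be a common denominator of all weights `w c`, `wI c`.  The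
template consists of the constraints `c` of `w`, `N * w c` times each, with slots `(1,0)`, `(2,0)`
for the two free variables, `(3, z)` for the auxiliary variable `z` and `(0, c)` for the constant
`c`, and of `M` times the constraints of `N * wI` with slots `(0, d)`, where `M` is larger than
`N * (total of w) * max φ`.  `κ = M * N * val wI id + N * L`, `δ = N * (H - L)` (natural numbers:
`N * h x y` is an integral combination of payoffs).  yes: `G = id`, `V true = p`, `V false = q`,
`C x y` optimal.  no: let `hG d = G d`.  If `hG ∉ U`, every copy of `N * wI` loses at least `1`, so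
every block has value at most `κ`.  If `hG ∈ U` take `b` of [g1] and `α v = (b v = p)`: every
block has value at most `κ`, plus `δ` if `α` separates the ends. -/
def GadS : Prop := ∀ (d g : ℕ) (ar : Fin g → ℕ) (φ : (i : Fin g) → (Fin (ar i) → Fin d) → ℕ),
  0 < d → ¬ SymPol (ratP φ) → Nonempty (EGad φ)

end Pool.Agent.Lib.MP_87d05f_lc.DI
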