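import Mathlib
import Pool.Agent.Lib.MP_87d05f_lc.DI.P.farkas
import Pool.Agent.Lib.MP_87d05f_lc.DI.P.gordan
import Pool.Agent.Lib.MP_87d05f_lc.DI.P.supp
import Pool.Agent.Lib.MP_87d05f_lc.DI.P.maxp
import Pool.Agent.Lib.MP_87d05f_lc.DI.P.u0
import Pool.Agent.Lib.MP_87d05f_lc.DI.P.u1
import Pool.Agent.Lib.MP_87d05f_lc.DI.P.u2
import Pool.Agent.Lib.MP_87d05f_lc.DI.P.u4
import Pool.Agent.Lib.MP_87d05f_lc.DI.P.u5
import Pool.Agent.Lib.MP_87d05f_lc.DI.P.u6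
import Pool.Agent.Lib.MP_87d05f_lc.DI.P.u7
import Pool.Agent.Lib.MP_87d05f_lc.DI.P.s0
import Pool.Agent.Lib.MP_87d05f_lc.DI.P.w0
import Pool.Agent.Lib.MP_87d05f_lc.DI.P.w1
import Pool.Agent.Lib.MP_87d05f_lc.DI.P.w2
import Pool.Agent.Lib.MP_87d05f_lc.DI.P.s1
import Pool.Agent.Lib.MP_87d05f_lc.DI.P.s2
import Pool.Agent.Lib.MP_87d05f_lc.DI.P.s3
import Pool.Agent.Lib.MP_87d05f_lc.DI.P.s4
import Pool.Agent.Lib.MP_87d05f_lc.DI.P.s5
import Pool.Agent.Lib.MP_87d05f_lc.DI.P.s6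
import Pool.Agent.Lib.MP_87d05f_lc.DI.P.g1
import Pool.Agent.Lib.MP_87d05f_lc.DI.P.g2
import Pool.Agent.Lib.MP_87d05f_lc.DI.P.d0
import Pool.Agent.Lib.MP_87d05f_lc.DI.P.d1

set_option autoImplicit false

/-!
# Assembly of the gadget for the maximum cut (helper60)
-/

namespace Pool.Agent.Lib.MP_87d05f_lc.DI

/-- every language without symmetric fractional polymorphism has an exact gadget -/
theorem gad_of (h3 : U3S) : GadS :=
  have hg : GordanS := gordan farkas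
  have hs : SuppS := supp farkas
  have hw0 : W0S := w0
  have hu4 : U4S := u4 hs
  g2 (u1 u0) hu4 (u5 hu4) (u7 (u6 hg u0 h3))
    (s6 hw0 (s1 hg s0) (s2 s0) (s4 s0 (s3 maxp s0 w1) hw0 (w2 hs s0)) (s5 hw0)) (g1 h3)

theorem red : D1S := d1 d0

end Pool.Agent.Lib.MP_87d05f_lc.DI
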