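import Mathlib
import Pool.Agent.Lib.MP_87d05f_lc.DI.AsmU
import Pool.Agent.Lib.MP_87d05f_lc.DI.P.u3

set_option autoImplicit false

/-!
# The gadget for the maximum cut (helper60)
-/

namespace Pool.Agent.Lib.MP_87d05f_lc.DI

/-- every language without symmetric fractional polymorphism has an exact gadget -/
theorem gad : GadS := gad_of (u3 maxp u0 (u2 u0))

end Pool.Agent.Lib.MP_87d05f_lc.DI
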