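import Mathlib
import Pool.Agent.Lib.MP_87d05f_lc.DI.Stm
import Pool.Agent.Lib.MP_87d05f_lc.CutMain

set_option autoImplicit false

/-!
# DICHOTOMY: statements of the machine pieces (helper60)

Pieces go to `DI/P/<name>.lean`, namespace `Pool.Agent.Lib.MP_87d05f_lc.DI`, theorem `<name>`,
with the statements a piece uses as hypotheses.
-/

namespace Pool.Agent.Lib.MP_87d05f_lc.DI

open Finset

/-! ## Machines -/

/-- [d0] A graph without loops has a cut with at least half of the edges.  (Induction on the
number of vertices, or average over all `α` on the vertices; the vertices are natural numbers: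
choose the sides of `0, 1, 2, ...` greedily.) -/
def D0S : Prop := ∀ E : List (ℕ × ℕ), (∀ e ∈ E, e.1 ≠ e.2) →
  ∃ α : ℕ → Bool, E.length ≤ 2 * E.countP (cutE α)

/-- [d1] (uses d0) The reduction from the maximum cut to the language `φ` with the gadget `X`.
Instances: `(t, E) ↦ (κ |E| + δ t, one copy of the template for every edge)`.  Names: global `t` is
`nb [] (3 * t)`, the end `v` of an edge is `nb (Nat.bits v) 1`, the local variable `t` of edge
number `n` is `nb (List.replicate n false) (3 * t + 2)`; compare `nmS`, `redT`, `csp_fwd` in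
`CspFwd.lean`, `CspMain.lean` and `cut_fwd` in `CutMain.lean`; `transfer` in `Transfer.lean`.
NO: all cuts `< (1 - p/q) t`, so by [d0] `|E| < 2 t`, and the value is at most
`κ |E| + δ (1 - p/q) t ≤ (1 - ε') (κ |E| + δ t)` with strict inequality for
`ε' = δ p / (q (2 κ + δ))` or half of it.  `b' = 2 * (number of constraints of the template) * b`
(add a constraint if the template is empty; it is not: `0 < δ`), since `|E| ≤ 2 n`
(`edges_le`). -/
def D1S : Prop := ∀ (d g : ℕ) (ar : Fin g → ℕ) (φ : (i : Fin g) → (Fin (ar i) → Fin d) → ℕ),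
  EGad φ → ∀ p q b : ℕ, 0 < p → p < q → 0 < b → ∃ p' q' b' : ℕ, 0 < p' ∧ p' < q' ∧ 0 < b' ∧
  (GSep (enM (ar := ar)) (fun _ => True) (YM φ) (NM φ ((p' : ℚ) / (q' : ℕ)))
    (fun I => I.2.length) b' → GSep enCut VCut YCut (NCut ((p : ℚ) / (q : ℕ))) nvCut b)

end Pool.Agent.Lib.MP_87d05f_lc.DI
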